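import Mathlib

set_option autoImplicit false

/-!
# Cleaning a family of cliques

Every family of `q`-tuples either has a nonempty subfamily in which every tuple has more than `s`
one-coordinate variations at every coordinate, or every tuple can be assigned a coordinate such
that every rim has at most `s` assigned completions.
-/

namespace Pool.Agent.U56.DG

open Finset Classical

variable {V : Type} [Fintype V]

theorem clean {k : ℕ} (s : ℕ) : ∀ (N : ℕ) (A : Finset (Fin (k + 1) → V)), A.card = N →
    (∃ S ⊆ A, S.Nonempty ∧ ∀ ψ ∈ S, ∀ i,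
      s < (univ.filter (fun y => Function.update ψ i y ∈ S)).card) ∨
    ∃ a : (Fin (k + 1) → V) → Fin (k + 1), ∀ ψ i,
      (univ.filter (fun y => Function.update ψ i y ∈ A ∧ a (Function.update ψ i y) = i)).card ≤ s := by
  intro N
  induction N using Nat.strong_induction_on with
  | _ N ih =>
    intro A hN
    rcases A.eq_empty_or_nonempty with hA | hA
    · right
      refine ⟨fun _ => 0, ?_⟩
      intro ψ i
      rw [hA]
      simp
    by_cases hgood : ∀ ψ ∈ A, ∀ i, s < (univ.filter (fun y => Function.update ψ i y ∈ A)).card
    · left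
      exact ⟨A, Finset.Subset.refl _, hA, hgood⟩
    push Not at hgood
    obtain ⟨ψ0, hψ0, i0, hi0⟩ := hgood
    set A' : Finset (Fin (k + 1) → V) := A.filter (fun ψ => ¬ ∃ y, ψ = Function.update ψ0 i0 y)
      with hA'
    have hlt : A'.card < N := by
      rw [← hN]
      refine Finset.card_lt_card ?_
      rw [Finset.ssubset_iff_of_subset (Finset.filter_subset _ _)]
      refine ⟨ψ0, hψ0, fun h => (Finset.mem_filter.1 h).2 ⟨ψ0 i0, ?_⟩⟩
      rw [Function.update_eq_self]
    rcases ih _ hlt A' rfl with ⟨S, hS, h1, h2⟩ | ⟨a', ha'⟩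
    · left
      exact ⟨S, hS.trans (Finset.filter_subset _ _), h1, h2⟩
    · right
      refine ⟨fun ψ => if ∃ y, ψ = Function.update ψ0 i0 y then i0 else a' ψ, ?_⟩
      intro ψ i
      by_cases hc : i = i0 ∧ ∃ y, ψ = Function.update ψ0 i0 y
      · obtain ⟨rfl, y0, hy0⟩ := hc
        refine (Finset.card_le_card ?_).trans hi0
        intro y hy
        rw [Finset.mem_filter] at hy ⊢
        refine ⟨Finset.mem_univ _, ?_⟩
        have h := hy.2.1
        rw [hy0, Function.update_idem] at h
        exact h
      · refine (Finset.card_le_card ?_).trans (ha' ψ i)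
        intro y hy
        rw [Finset.mem_filter] at hy ⊢
        refine ⟨Finset.mem_univ _, ?_⟩
        obtain ⟨-, h1, h2⟩ := hy
        have h3 : ¬ ∃ y', Function.update ψ i y = Function.update ψ0 i0 y' := by
          intro h
          simp only [if_pos h] at h2
          obtain ⟨y', hy'⟩ := h
          apply hc
          refine ⟨h2.symm, ψ i, ?_⟩
          rw [← h2] at hy'
          rw [h2]
          funext z
          by_cases hz : z = i
          · rw [hz, ← h2]; simp
          · have h4 := congrFun hy' z
            rw [← h2]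
            rw [← h2] at hz
            rw [Function.update_of_ne hz, Function.update_of_ne hz] at h4
            rw [Function.update_of_ne hz]
            exact h4
        simp only [if_neg h3] at h2
        exact ⟨Finset.mem_filter.2 ⟨h1, h3⟩, h2⟩

/-- the configurations: the assigned coordinate is moved to the place `0` -/
noncomputable def Psi {k : ℕ} (A : Finset (Fin (k + 1) → V)) (a : (Fin (k + 1) → V) → Fin (k + 1)) :
    Finset (Fin (k + 1) → V) := A.image (fun ψ => ψ ∘ Equiv.swap 0 (a ψ))

theorem psi_few {k s : ℕ} (A : Finset (Fin (k + 1) → V)) (a : (Fin (k + 1) → V) → Fin (k + 1))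
    (ha : ∀ ψ i, (univ.filter (fun y => Function.update ψ i y ∈ A ∧
      a (Function.update ψ i y) = i)).card ≤ s) (ψ' : Fin (k + 1) → V) (Y : Finset V)
    (hY : ∀ y ∈ Y, Function.update ψ' 0 y ∈ Psi A a) : Y.card ≤ (k + 1) * s := by
  have hsub : Y ⊆ (univ : Finset (Fin (k + 1))).biUnion (fun i => univ.filter (fun y =>
      Function.update (ψ' ∘ Equiv.swap 0 i) i y ∈ A ∧
        a (Function.update (ψ' ∘ Equiv.swap 0 i) i y) = i)) := by
    intro y hy
    obtain ⟨ψ, hψ, he⟩ := Finset.mem_image.1 (hY y hy)
    rw [Finset.mem_biUnion]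
    refine ⟨a ψ, Finset.mem_univ _, ?_⟩
    have key : ψ = Function.update (ψ' ∘ Equiv.swap 0 (a ψ)) (a ψ) y := by
      funext z
      have h1 := congrFun he (Equiv.swap 0 (a ψ) z)
      simp only [Function.comp_apply, Equiv.swap_apply_self] at h1
      rw [h1]
      by_cases hz : z = a ψ
      · rw [hz, Function.update_self, Equiv.swap_apply_right, Function.update_self]
      · rw [Function.update_of_ne hz, Function.update_of_ne, Function.comp_apply]
        intro h
        apply hz
        have h2 := congrArg (Equiv.swap 0 (a ψ)) h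
        rw [Equiv.swap_apply_self, Equiv.swap_apply_left] at h2
        exact h2
    rw [Finset.mem_filter]
    refine ⟨Finset.mem_univ _, ?_, ?_⟩
    · rw [← key]; exact hψ
    · rw [← key]
  refine (Finset.card_le_card hsub).trans ?_
  refine (Finset.card_biUnion_le_card_mul _ _ s (fun i _ => ha _ _)).trans ?_
  rw [Finset.card_univ, Fintype.card_fin]

end Pool.Agent.U56.DG
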