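import Mathlib
import Pool.Agent.TH855.Hom

set_option autoImplicit false

/-!
# Blow-ups of cliques in a clean family
-/

namespace Pool.Agent.U56.DG

open Finset Classical Pool.Agent.TH855

set_option linter.unusedSectionVars false

variable {V : Type} [Fintype V] {q r : ℕ}

/-- `T` with the coordinates `i ≥ j` constant such that all transversals are in `S` -/
noncomputable def Bl (r : ℕ) (S : Finset (Fin q → V)) (j : ℕ) : Finset (Fin q → Fin (r + 1) → V) :=
  univ.filter (fun T => (∀ c : Fin q → Fin (r + 1), (fun i => T i (c i)) ∈ S) ∧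
    ∀ i : Fin q, j ≤ i.1 → ∀ a, T i a = T i 0)

theorem mem_bl {S : Finset (Fin q → V)} {j : ℕ} {T : Fin q → Fin (r + 1) → V} :
    T ∈ Bl r S j ↔ (∀ c : Fin q → Fin (r + 1), (fun i => T i (c i)) ∈ S) ∧
    ∀ i : Fin q, j ≤ i.1 → ∀ a, T i a = T i 0 := by
  rw [Bl, Finset.mem_filter]
  simp

/-- forget a coordinate -/
def rst (r : ℕ) (j : Fin q) (T : Fin q → Fin (r + 1) → V) : {i : Fin q // i ≠ j} → Fin (r + 1) → V :=
  fun i => T i

/-- add a coordinate -/
noncomputable def ext (r : ℕ) (j : Fin q) (ρ : {i : Fin q // i ≠ j} → Fin (r + 1) → V)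
    (τ : Fin (r + 1) → V) : Fin q → Fin (r + 1) → V :=
  fun i => if h : i = j then τ else ρ ⟨i, h⟩

theorem ext_self (j : Fin q) (ρ : {i : Fin q // i ≠ j} → Fin (r + 1) → V)
    (τ : Fin (r + 1) → V) : ext r j ρ τ j = τ := by
  simp [ext]

theorem ext_ne (j : Fin q) (ρ : {i : Fin q // i ≠ j} → Fin (r + 1) → V)
    (τ : Fin (r + 1) → V) {i : Fin q} (h : i ≠ j) : ext r j ρ τ i = ρ ⟨i, h⟩ := by
  simp [ext, h]

theorem ext_rst (j : Fin q) (T : Fin q → Fin (r + 1) → V) : ext r j (rst r j T) (T j) = T := by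
  funext i
  by_cases h : i = j
  · rw [h, ext_self]
  · rw [ext_ne _ _ _ h]; rfl

theorem rst_ext (j : Fin q) (ρ : {i : Fin q // i ≠ j} → Fin (r + 1) → V)
    (τ : Fin (r + 1) → V) : rst r j (ext r j ρ τ) = ρ := by
  funext i
  rw [rst, ext_ne _ _ _ i.2]

theorem bl_zero (S : Finset (Fin q → V)) : S.card ≤ (Bl r S 0).card := by
  refine Finset.card_le_card_of_injOn (fun ψ => fun i _ => ψ i) ?_ ?_
  · intro ψ hψ
    rw [Finset.mem_coe, mem_bl]
    exact ⟨fun c => hψ, fun i _ a => rfl⟩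
  · intro ψ _ ψ' _ h
    funext i
    exact congrFun (congrFun h i) 0

theorem bl_step (S : Finset (Fin q → V)) (j : Fin q) :
    (Bl r S j).card ^ (r + 1) ≤ ((Bl r S j).image (rst r j)).card ^ r * (Bl r S (j + 1)).card := by
  set R := (Bl r S j).image (rst r j) with hR
  set B : ({i : Fin q // i ≠ j} → Fin (r + 1) → V) → Finset V :=
    fun ρ => univ.filter (fun y => ext r j ρ (fun _ => y) ∈ Bl r S j) with hB
  have h1 : (Bl r S j).card ≤ ∑ ρ ∈ R, (B ρ).card := by
    rw [Finset.card_eq_sum_card_image (rst r j) (Bl r S j)]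
    refine Finset.sum_le_sum (fun ρ _ => ?_)
    have hT : ∀ T ∈ (Bl r S j).filter (fun T => rst r j T = ρ), T = ext r j ρ (fun _ => T j 0) := by
      intro T hT
      rw [Finset.mem_filter, mem_bl] at hT
      have h2 := ext_rst j T
      rw [hT.2] at h2
      have h3 : T j = fun _ => T j 0 := by
        funext a
        exact hT.1.2 j (le_refl _) a
      rw [h3] at h2
      exact h2.symm
    refine Finset.card_le_card_of_injOn (fun T => T j 0) ?_ ?_
    · intro T hT'
      have h2 := hT T hT'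
      rw [Finset.mem_coe, hB, Finset.mem_filter]
      refine ⟨Finset.mem_univ _, ?_⟩
      rw [← h2]
      exact (Finset.mem_filter.1 hT').1
    · intro T hT1 T' hT2 h
      rw [hT T hT1, hT T' hT2]
      simp only at h
      rw [h]
  have h2 : ∑ ρ ∈ R, (B ρ).card ^ (r + 1) ≤ (Bl r S (j + 1)).card := by
    have h3 : (R.sigma (fun ρ => Fintype.piFinset (fun _ : Fin (r + 1) => B ρ))).card =
        ∑ ρ ∈ R, (B ρ).card ^ (r + 1) := by
      rw [Finset.card_sigma]
      refine Finset.sum_congr rfl (fun ρ _ => ?_)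
      rw [Fintype.card_piFinset]
      simp
    rw [← h3]
    refine Finset.card_le_card_of_injOn (fun p => ext r j p.1 p.2) ?_ ?_
    · rintro ⟨ρ, τ⟩ hp
      rw [Finset.mem_coe, Finset.mem_sigma, Fintype.mem_piFinset] at hp
      have hτ : ∀ a, ext r j ρ (fun _ => τ a) ∈ Bl r S j := fun a => (Finset.mem_filter.1 (hp.2 a)).2
      rw [Finset.mem_coe, mem_bl]
      refine ⟨?_, ?_⟩
      · intro c
        have h4 := (mem_bl.1 (hτ (c j))).1 c
        have h5 : (fun i => ext r j ρ τ i (c i)) =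
            fun i => ext r j ρ (fun _ => τ (c j)) i (c i) := by
          funext i
          by_cases h : i = j
          · subst h
            rw [ext_self, ext_self]
          · rw [ext_ne _ _ _ h, ext_ne _ _ _ h]
        simp only
        rw [h5]
        exact h4
      · intro i hi a
        have hij : i ≠ j := by
          rintro rfl
          omega
        have h4 := (mem_bl.1 (hτ 0)).2 i (by omega) a
        rw [ext_ne _ _ _ hij] at h4
        show ext r j ρ τ i a = ext r j ρ τ i 0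
        rw [ext_ne _ _ _ hij]
        exact h4
    · rintro ⟨ρ, τ⟩ _ ⟨ρ', τ'⟩ _ h
      simp only at h
      have h4 := congrArg (rst r j) h
      rw [rst_ext, rst_ext] at h4
      have h5 := congrFun h j
      rw [ext_self, ext_self] at h5
      rw [h4, h5]
  calc (Bl r S j).card ^ (r + 1) ≤ (∑ ρ ∈ R, (B ρ).card) ^ (r + 1) := Nat.pow_le_pow_left h1 _
    _ ≤ R.card ^ r * ∑ ρ ∈ R, (B ρ).card ^ (r + 1) := by
        have := pow_sum_le_card_mul_sum_pow (s := R) (f := fun ρ => (B ρ).card)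
          (fun _ _ => Nat.zero_le _) r
        exact_mod_cast this
    _ ≤ _ := Nat.mul_le_mul_left _ h2

/-- the coordinates of the rests -/
abbrev Wt (q r : ℕ) (j : Fin q) (P : Fin q → Prop) : Type :=
  {p : Fin q × Fin (r + 1) // p.1 ≠ j ∧ (P p.1 → p.2 = 0)}

/-- complete multipartite graph on the coordinates of the rests -/
def Wg (q r : ℕ) (j : Fin q) (P : Fin q → Prop) : SimpleGraph (Wt q r j P) where
  Adj p p' := p.1.1 ≠ p'.1.1
  symm := ⟨fun _ _ h => h.symm⟩
  loopless := ⟨fun _ h => h rfl⟩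

theorem wg_connected (hq : 3 ≤ q) (j : Fin q) (P : Fin q → Prop) : (Wg q r j P).Connected := by
  have hpt : ∀ i : Fin q, i ≠ j → ∃ w : Wt q r j P, w.1.1 = i :=
    fun i hi => ⟨⟨(i, 0), hi, fun _ => rfl⟩, rfl⟩
  have hex : ∀ i : Fin q, ∃ i' : Fin q, i' ≠ j ∧ i' ≠ i := by
    intro i
    by_contra hcon
    push Not at hcon
    have h1 : (univ : Finset (Fin q)) ⊆ {j, i} := by
      intro x _
      by_cases hx : x = j
      · simp [hx]
      · simp [hcon x hx]
    have h2 := (Finset.card_le_card h1).trans Finset.card_le_two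
    rw [Finset.card_univ, Fintype.card_fin] at h2
    omega
  obtain ⟨i0, hi0, -⟩ := hex j
  obtain ⟨w0, -⟩ := hpt i0 hi0
  have : Nonempty (Wt q r j P) := ⟨w0⟩
  refine SimpleGraph.Connected.mk ?_
  intro x y
  by_cases hxy : x.1.1 = y.1.1
  · obtain ⟨i', h1, h2⟩ := hex x.1.1
    obtain ⟨w, hw⟩ := hpt i' h1
    have a1 : (Wg q r j P).Adj x w := by
      show x.1.1 ≠ w.1.1
      rw [hw]; exact h2.symm
    have a2 : (Wg q r j P).Adj w y := by
      show w.1.1 ≠ y.1.1
      rw [hw, ← hxy]; exact h2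
    exact a1.reachable.trans a2.reachable
  · have a1 : (Wg q r j P).Adj x y := hxy
    exact a1.reachable

theorem wt_card (q r : ℕ) (j : Fin q) (P : Fin q → Prop) :
    Nat.card (Wt q r j P) = ∑ i : Fin q, if i = j then 0 else if P i then 1 else r + 1 := by
  rw [Nat.card_eq_fintype_card, Fintype.card_subtype, Finset.card_filter, ← Finset.univ_product_univ, Finset.sum_product]
  refine Finset.sum_congr rfl (fun i _ => ?_)
  by_cases h : i = j
  · simp [h]
  · by_cases hP : P i
    · simp [h, hP]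
    · simp [h, hP]

theorem sum_aux (q r m : ℕ) (hm : m < q) :
    ∑ i ∈ range q, (if i = m then 0 else if m ≤ i then 1 else r + 1) = m * r + (q - 1) := by
  obtain ⟨n, rfl⟩ : ∃ n, q = m + (1 + n) := ⟨q - 1 - m, by omega⟩
  have h2 : m + (1 + n) - 1 = m + n := by omega
  rw [h2, Finset.sum_range_add, Finset.sum_range_add]
  have e1 : ∑ x ∈ range m, (if x = m then 0 else if m ≤ x then 1 else r + 1) = m * (r + 1) := by
    rw [Finset.sum_congr rfl (g := fun _ => r + 1)]
    · rw [Finset.sum_const, Finset.card_range, smul_eq_mul]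
    · intro x hx
      rw [Finset.mem_range] at hx
      rw [if_neg (by omega), if_neg (by omega)]
  have e2 : ∑ x ∈ range n, (if m + (1 + x) = m then 0 else if m ≤ m + (1 + x) then 1 else r + 1) =
      n := by
    rw [Finset.sum_congr rfl (g := fun _ => 1)]
    · rw [Finset.sum_const, Finset.card_range, smul_eq_mul, mul_one]
    · intro x hx
      rw [if_neg (by omega), if_pos (by omega)]
  rw [e1, e2]
  simp
  ring

theorem wt_card1 (q r : ℕ) (j : Fin q) :
    Nat.card (Wt q r j (fun i => j.1 ≤ i.1)) = j.1 * r + (q - 1) := by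
  rw [wt_card]
  refine Eq.trans (b := ∑ i ∈ range q, if i = j.1 then 0 else if j.1 ≤ i then 1 else r + 1) ?_ ?_
  · rw [← Fin.sum_univ_eq_sum_range (fun i => if i = j.1 then 0 else if j.1 ≤ i then 1 else r + 1) q]
    refine Finset.sum_congr rfl (fun i _ => ?_)
    by_cases h1 : i = j
    · simp [h1]
    · have h2 : i.1 ≠ j.1 := fun h => h1 (Fin.ext h)
      rw [if_neg h1, if_neg h2]
      by_cases h3 : j.1 ≤ i.1
      · rw [if_pos h3, if_pos h3]
      · rw [if_neg h3, if_neg h3]
  exact sum_aux q r j.1 j.2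

theorem wt_card2 (q r : ℕ) (j : Fin q) :
    Nat.card (Wt q r j (fun _ => False)) = (q - 1) * (r + 1) := by
  rw [wt_card]
  refine Eq.trans (b := ∑ i ∈ univ.erase j, (r + 1)) ?_ ?_
  · rw [← Finset.sum_erase_add _ _ (Finset.mem_univ j)]
    rw [if_pos rfl, add_zero]
    refine Finset.sum_congr rfl (fun i hi => ?_)
    rw [if_neg (Finset.ne_of_mem_erase hi), if_neg not_false]
  · rw [Finset.sum_const, Finset.card_erase_of_mem (Finset.mem_univ _), Finset.card_univ,
      Fintype.card_fin, smul_eq_mul]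

/-- the number of rests -/
theorem rest_card (hq : 3 ≤ q) (G : SimpleGraph V) (D : ℕ)
    (hD : ∀ v, ∀ N : Finset V, (∀ w ∈ N, G.Adj v w) → N.card ≤ D) (S : Finset (Fin q → V))
    (hS : ∀ ψ ∈ S, ∀ i i', i ≠ i' → G.Adj (ψ i) (ψ i')) (V' : Finset V)
    (hV' : ∀ ψ ∈ S, ∀ i, ψ i ∈ V') (j : Fin q) (P : Fin q → Prop)
    (X : Finset (Fin q → Fin (r + 1) → V))
    (hX : ∀ T ∈ X, (∀ c : Fin q → Fin (r + 1), (fun i => T i (c i)) ∈ S) ∧
      ∀ i, P i → ∀ a, T i a = T i 0) :
    (X.image (rst r j)).card ≤ D ^ (Nat.card (Wt q r j P) - 1) * V'.card := by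
  have hadj : ∀ T ∈ X, ∀ i i' a a', i ≠ i' → G.Adj (T i a) (T i' a') := by
    intro T hT i i' a a' hne
    have h1 := hS _ ((hX T hT).1 (fun l => if l = i then a else a')) i i' hne
    simpa [hne.symm] using h1
  have hmem : ∀ T ∈ X, ∀ i a, T i a ∈ V' := fun T hT i a => hV' _ ((hX T hT).1 (fun _ => a)) i
  obtain ⟨w0⟩ : Nonempty (Wt q r j P) := (wg_connected hq j P).nonempty
  set toW : ({i : Fin q // i ≠ j} → Fin (r + 1) → V) → (Wt q r j P → V) :=
    fun ρ p => ρ ⟨p.1.1, p.2.1⟩ p.1.2 with htoW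
  have hinj : Set.InjOn toW (X.image (rst r j) : Finset _) := by
    intro ρ hρ ρ' hρ' h
    rw [Finset.mem_coe, Finset.mem_image] at hρ hρ'
    obtain ⟨T, hT, rfl⟩ := hρ
    obtain ⟨T', hT', rfl⟩ := hρ'
    funext i a
    by_cases hP : P i.1
    · have h1 := congrFun h ⟨(i.1, 0), i.2, fun _ => rfl⟩
      have h1' : T i.1 0 = T' i.1 0 := h1
      show T i.1 a = T' i.1 a
      rw [(hX T hT).2 _ hP, (hX T' hT').2 _ hP, h1']
    · exact congrFun h ⟨(i.1, a), i.2, fun h => absurd h hP⟩
  rw [← Finset.card_image_of_injOn hinj]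
  have h2 := count_in' (Wg q r j P) (wg_connected hq j P) G D hD {w0}
    (Finset.singleton_nonempty _) V' ((X.image (rst r j)).image toW) (by
      intro φ hφ
      rw [Finset.mem_image] at hφ
      obtain ⟨ρ, hρ, rfl⟩ := hφ
      rw [Finset.mem_image] at hρ
      obtain ⟨T, hT, rfl⟩ := hρ
      refine ⟨?_, ?_⟩
      · intro a b hab
        exact hadj T hT _ _ _ _ hab
      · intro z _
        exact hmem T hT _ _)
  rw [Finset.card_singleton, pow_one, ← Nat.card_eq_fintype_card] at h2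
  exact h2

end Pool.Agent.U56.DG
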