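import Mathlib
import Pool.Agent.U56.DG.Blow

set_option autoImplicit false

/-!
# Dependent random choice in a clean family of cliques
-/

namespace Pool.Agent.U56.DG

open Finset Classical Pool.Agent.TH855

set_option linter.unusedSectionVars false

variable {V : Type} [Fintype V] {q r : ℕ}

/-- many variations of a tuple in the coordinates of `J` -/
theorem off_card (S : Finset (Fin q → V)) (σ : ℝ) (hσ : 0 ≤ σ)
    (hrich : ∀ ψ ∈ S, ∀ i, σ ≤ ((univ.filter (fun y => Function.update ψ i y ∈ S)).card : ℝ))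
    (ψ : Fin q → V) (hψ : ψ ∈ S) (J : Finset (Fin q)) :
    σ ^ J.card ≤ ((S.filter (fun ψ' => ∀ i, i ∉ J → ψ' i = ψ i)).card : ℝ) := by
  induction J using Finset.induction_on with
  | empty =>
    rw [Finset.card_empty, pow_zero]
    have h1 : ψ ∈ S.filter (fun ψ' => ∀ i, i ∉ (∅ : Finset (Fin q)) → ψ' i = ψ i) :=
      Finset.mem_filter.2 ⟨hψ, fun _ _ => rfl⟩
    exact_mod_cast Finset.card_pos.2 ⟨ψ, h1⟩
  | insert j J hj ih =>
    rw [Finset.card_insert_of_notMem hj, pow_succ]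
    set X := S.filter (fun ψ' => ∀ i, i ∉ J → ψ' i = ψ i) with hX
    have h1 : (X.sigma (fun ψ' => univ.filter (fun y => Function.update ψ' j y ∈ S))).card ≤
        (S.filter (fun ψ' => ∀ i, i ∉ insert j J → ψ' i = ψ i)).card := by
      refine Finset.card_le_card_of_injOn (fun p => Function.update p.1 j p.2) ?_ ?_
      · rintro ⟨ψ1, y1⟩ hp
        rw [Finset.mem_coe, Finset.mem_sigma] at hp
        obtain ⟨hp1, hp2⟩ := hp
        rw [Finset.mem_coe, Finset.mem_filter]
        refine ⟨(Finset.mem_filter.1 hp2).2, ?_⟩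
        intro i hi
        rw [Finset.mem_insert, not_or] at hi
        show Function.update ψ1 j y1 i = ψ i
        rw [Function.update_of_ne hi.1]
        exact (Finset.mem_filter.1 hp1).2 i hi.2
      · rintro ⟨ψ1, y1⟩ hp ⟨ψ2, y2⟩ hp' h
        rw [Finset.mem_coe, Finset.mem_sigma] at hp hp'
        have hp1 := (Finset.mem_filter.1 hp.1).2
        have hp2 := (Finset.mem_filter.1 hp'.1).2
        simp only at h hp1 hp2
        have hy : y1 = y2 := by
          have h2 := congrFun h j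
          rwa [Function.update_self, Function.update_self] at h2
        have hψ12 : ψ1 = ψ2 := by
          funext i
          by_cases hi : i = j
          · rw [hi, hp1 j hj, hp2 j hj]
          · have h2 := congrFun h i
            rwa [Function.update_of_ne hi, Function.update_of_ne hi] at h2
        rw [hy, hψ12]
    have h2 : (X.card : ℝ) * σ ≤
        ((X.sigma (fun ψ' => univ.filter (fun y => Function.update ψ' j y ∈ S))).card : ℝ) := by
      rw [Finset.card_sigma, Nat.cast_sum, ← nsmul_eq_mul, ← Finset.sum_const]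
      refine Finset.sum_le_sum (fun ψ' hψ' => ?_)
      exact hrich ψ' (Finset.mem_filter.1 hψ').1 j
    calc σ ^ J.card * σ ≤ X.card * σ := mul_le_mul_of_nonneg_right ih hσ
      _ ≤ _ := h2
      _ ≤ _ := by exact_mod_cast h1

/-- the vertices of the tuples of `S` -/
noncomputable def Vs (S : Finset (Fin q → V)) : Finset V :=
  univ.filter (fun v => ∃ ψ ∈ S, ∃ i, ψ i = v)

theorem vert_card (S : Finset (Fin q → V)) (σ : ℝ) (hσ : 0 ≤ σ)
    (hrich : ∀ ψ ∈ S, ∀ i, σ ≤ ((univ.filter (fun y => Function.update ψ i y ∈ S)).card : ℝ)) :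
    (Vs S).card * σ ^ (q - 1) ≤ (q : ℝ) * S.card := by
  have h1 : ∀ v ∈ Vs S, σ ^ (q - 1) ≤
      ∑ i : Fin q, ((S.filter (fun ψ => ψ i = v)).card : ℝ) := by
    intro v hv
    obtain ⟨-, ψ, hψ, i, rfl⟩ := Finset.mem_filter.1 hv
    have h2 := off_card S σ hσ hrich ψ hψ (univ.erase i)
    rw [Finset.card_erase_of_mem (Finset.mem_univ _), Finset.card_univ, Fintype.card_fin] at h2
    have h6 : (S.filter (fun ψ' => ∀ i', i' ∉ univ.erase i → ψ' i' = ψ i')).card ≤
        (S.filter (fun ψ' => ψ' i = ψ i)).card := by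
      refine Finset.card_le_card ?_
      intro ψ' hψ'
      rw [Finset.mem_filter] at hψ' ⊢
      exact ⟨hψ'.1, hψ'.2 i (by simp)⟩
    have h7 : ((S.filter (fun ψ' => ∀ i', i' ∉ univ.erase i → ψ' i' = ψ i')).card : ℝ) ≤
        ((S.filter (fun ψ' => ψ' i = ψ i)).card : ℝ) := by exact_mod_cast h6
    have h8 : ((S.filter (fun ψ' => ψ' i = ψ i)).card : ℝ) ≤
        ∑ i' : Fin q, ((S.filter (fun ψ' => ψ' i' = ψ i)).card : ℝ) :=
      Finset.single_le_sum (f := fun i' : Fin q => ((S.filter (fun ψ' => ψ' i' = ψ i)).card : ℝ))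
        (fun _ _ => Nat.cast_nonneg _) (Finset.mem_univ i)
    exact h2.trans (h7.trans h8)
  have h3 : (Vs S).card * σ ^ (q - 1) ≤
      ∑ v ∈ Vs S, ∑ i : Fin q, ((S.filter (fun ψ => ψ i = v)).card : ℝ) := by
    rw [← nsmul_eq_mul, ← Finset.sum_const]
    exact Finset.sum_le_sum h1
  refine h3.trans ?_
  rw [Finset.sum_comm]
  have h4 : ∀ i : Fin q, ∑ v ∈ Vs S, ((S.filter (fun ψ => ψ i = v)).card : ℝ) = S.card := by
    intro i
    have h5 := Finset.card_eq_sum_card_fiberwise (f := fun ψ : Fin q → V => ψ i) (s := S)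
      (t := Vs S) (by
        intro ψ hψ
        rw [Finset.mem_coe, Vs, Finset.mem_filter]
        exact ⟨Finset.mem_univ _, ψ, hψ, i, rfl⟩)
    rw [h5]
    push_cast
    rfl
  rw [Finset.sum_congr rfl (fun i _ => h4 i), Finset.sum_const, Finset.card_univ,
    Fintype.card_fin, nsmul_eq_mul]

theorem alg1 (L n d : ℝ) (r e : ℕ) :
    (L * n * d ^ (e + 1)) ^ (r + 1) = (d ^ e * n) ^ r * (L ^ (r + 1) * n * d ^ (e + 1 + r)) := by
  simp only [mul_pow, ← pow_mul]
  have h1 : d ^ ((e + 1) * (r + 1)) = d ^ (e * r) * d ^ (e + 1 + r) := by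
    rw [← pow_add]; congr 1; ring
  rw [h1, pow_succ n r]
  ring

theorem alg2 (P n d : ℝ) (a r : ℕ) :
    P * n * d ^ (a + r + 1) = (n * d ^ (a + r)) * (P * d) := by
  rw [pow_succ]; ring

theorem alg3 (x m n d : ℝ) (a r : ℕ) :
    x * (m ^ (r + 1) * ((d ^ a * n) * (x * d) ^ r)) = (n * d ^ (a + r)) * (x * m) ^ (r + 1) := by
  rw [pow_add d a r, mul_pow x d, mul_pow x m, pow_succ x r]
  ring

/-- the lower bound for the number of blow-ups -/
theorem bl_lower (hq : 3 ≤ q) (G : SimpleGraph V) (D : ℕ) (hD1 : 1 ≤ D)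
    (hD : ∀ v, ∀ N : Finset V, (∀ w ∈ N, G.Adj v w) → N.card ≤ D) (S : Finset (Fin q → V))
    (hS : ∀ ψ ∈ S, ∀ i i', i ≠ i' → G.Adj (ψ i) (ψ i')) (V' : Finset V)
    (hV' : ∀ ψ ∈ S, ∀ i, ψ i ∈ V') (hn : 0 < V'.card) (l : ℝ) (hl : 0 ≤ l)
    (h0 : l * V'.card * (D : ℝ) ^ (q - 1) ≤ S.card) :
    ∀ j ≤ q, l ^ ((r + 1) ^ j) * V'.card * (D : ℝ) ^ (j * r + (q - 1)) ≤ ((Bl r S j).card : ℝ) := by
  intro j
  have hDpos : (0 : ℝ) < D := by exact_mod_cast hD1
  have hnpos : (0 : ℝ) < V'.card := by exact_mod_cast hn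
  induction j with
  | zero =>
    intro _
    rw [pow_zero, pow_one, zero_mul, zero_add]
    refine h0.trans ?_
    exact_mod_cast bl_zero S
  | succ j ih =>
    intro hj
    have ih' := ih (by omega)
    set e : ℕ := j * r + (q - 1) with he
    have he1 : 1 ≤ e := by omega
    have h1 := bl_step (r := r) S (⟨j, by omega⟩ : Fin q)
    have h2 := rest_card (r := r) hq G D hD S hS V' hV' (⟨j, by omega⟩ : Fin q)
      (fun i => (⟨j, by omega⟩ : Fin q).1 ≤ i.1) (Bl r S j) (fun T hT => mem_bl.1 hT)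
    rw [wt_card1] at h2
    simp only at h1 h2
    rw [← he] at h2
    have h3 : ((Bl r S j).card : ℝ) ^ (r + 1) ≤
        ((D : ℝ) ^ (e - 1) * V'.card) ^ r * ((Bl r S (j + 1)).card : ℝ) := by
      have h4 : (Bl r S j).card ^ (r + 1) ≤
          (D ^ (e - 1) * V'.card) ^ r * (Bl r S (j + 1)).card :=
        h1.trans (Nat.mul_le_mul_right _ (Nat.pow_le_pow_left h2 _))
      exact_mod_cast h4
    have h5 : (l ^ ((r + 1) ^ j) * V'.card * (D : ℝ) ^ e) ^ (r + 1) ≤
        ((Bl r S j).card : ℝ) ^ (r + 1) := pow_le_pow_left₀ (by positivity) ih' _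
    have h6 : (l ^ ((r + 1) ^ j) * V'.card * (D : ℝ) ^ e) ^ (r + 1) =
        ((D : ℝ) ^ (e - 1) * V'.card) ^ r *
          (l ^ ((r + 1) ^ (j + 1)) * V'.card * (D : ℝ) ^ ((j + 1) * r + (q - 1))) := by
      have h7 : (j + 1) * r + (q - 1) = (e - 1) + 1 + r := by
        rw [Nat.sub_add_cancel he1, he]; ring
      have h8 := alg1 (l ^ ((r + 1) ^ j)) V'.card (D : ℝ) r (e - 1)
      rw [Nat.sub_add_cancel he1] at h8
      rw [h8, h7, Nat.sub_add_cancel he1, pow_succ (r + 1) j, pow_mul]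
    have h7 := h5.trans h3
    rw [h6] at h7
    exact le_of_mul_le_mul_left h7 (by positivity)

/-- the common neighbours of the other parts -/
noncomputable def CA (r : ℕ) (G : SimpleGraph V) (T : Fin q → Fin (r + 1) → V) (i : Fin q) :
    Finset V := univ.filter (fun y => ∀ j, j ≠ i → ∀ a, G.Adj (T j a) y)

theorem mem_ca {G : SimpleGraph V} {T : Fin q → Fin (r + 1) → V} {i : Fin q} {y : V} :
    y ∈ CA r G T i ↔ ∀ j, j ≠ i → ∀ a, G.Adj (T j a) y := by
  simp [CA]

end Pool.Agent.U56.DG
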