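import Mathlib
import Pool.Agent.U56.DG.DrcA

set_option autoImplicit false

/-!
# Dependent random choice in a clean family of cliques
-/

namespace Pool.Agent.U56.DG

open Finset Classical Pool.Agent.TH855

set_option linter.unusedSectionVars false

variable {V : Type} [Fintype V] {q r : ℕ}

/-- the number of bad blow-ups -/
theorem bad_card (hq : 3 ≤ q) (G : SimpleGraph V) (D m : ℕ)
    (hD : ∀ v, ∀ N : Finset V, (∀ w ∈ N, G.Adj v w) → N.card ≤ D) (S : Finset (Fin q → V))
    (hS : ∀ ψ ∈ S, ∀ i i', i ≠ i' → G.Adj (ψ i) (ψ i')) (V' : Finset V)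
    (hV' : ∀ ψ ∈ S, ∀ i, ψ i ∈ V') (i0 : Fin q) :
    ((Bl r S q).filter (fun T => ∃ Sf : Fin r → V, (∀ l, ∃ i, i ≠ i0 ∧ Sf l ∈ CA r G T i) ∧
      ((CA r G T i0).filter (fun y => ∀ l, G.Adj (Sf l) y)).card ≤ m)).card ≤
      m ^ (r + 1) * ((D ^ ((q - 1) * (r + 1) - 1) * V'.card) * (q * D) ^ r) := by
  set X := (Bl r S q).filter (fun T => ∃ Sf : Fin r → V, (∀ l, ∃ i, i ≠ i0 ∧ Sf l ∈ CA r G T i) ∧
      ((CA r G T i0).filter (fun y => ∀ l, G.Adj (Sf l) y)).card ≤ m) with hX
  have hadj : ∀ T ∈ Bl r S q, ∀ i i' a a', i ≠ i' → G.Adj (T i a) (T i' a') := by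
    intro T hT i i' a a' hne
    have h1 := hS _ ((mem_bl.1 hT).1 (fun l => if l = i then a else a')) i i' hne
    simpa [hne.symm] using h1
  have hch : ∀ T : Fin q → Fin (r + 1) → V, ∃ Sf : Fin r → V, T ∈ X →
      (∀ l, ∃ i, i ≠ i0 ∧ Sf l ∈ CA r G T i) ∧
      ((CA r G T i0).filter (fun y => ∀ l, G.Adj (Sf l) y)).card ≤ m := by
    intro T
    by_cases hT : T ∈ X
    · obtain ⟨Sf, hSf⟩ := (Finset.mem_filter.1 hT).2
      exact ⟨Sf, fun _ => hSf⟩
    · exact ⟨fun _ => T i0 0, fun h => absurd h hT⟩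
  choose sf hsf using hch
  set f : (Fin q → Fin (r + 1) → V) →
      (Σ _ : ({i : Fin q // i ≠ i0} → Fin (r + 1) → V), (Fin r → V)) :=
    fun T => ⟨rst r i0 T, sf T⟩ with hf
  have hCA : ∀ T T' : Fin q → Fin (r + 1) → V, rst r i0 T = rst r i0 T' →
      CA r G T i0 = CA r G T' i0 := by
    intro T T' h
    ext y
    rw [mem_ca, mem_ca]
    refine forall_congr' (fun j => forall_congr' (fun hj => forall_congr' (fun a => ?_)))
    have h1 : T j a = T' j a := congrFun (congrFun h ⟨j, hj⟩) a
    rw [h1]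
  have hex : ∀ i i' : Fin q, ∃ i'' : Fin q, i'' ≠ i ∧ i'' ≠ i' := by
    intro i i'
    by_contra hcon
    push Not at hcon
    have h1 : (univ : Finset (Fin q)) ⊆ {i, i'} := by
      intro x _
      by_cases hx : x = i
      · simp [hx]
      · simp [hcon x hx]
    have h2 := (Finset.card_le_card h1).trans Finset.card_le_two
    rw [Finset.card_univ, Fintype.card_fin] at h2
    omega
  refine (Finset.card_le_mul_card_image (f := f) X (m ^ (r + 1)) ?_).trans ?_
  · intro b hb
    obtain ⟨T0, hT0, rfl⟩ := Finset.mem_image.1 hb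
    set C := (CA r G T0 i0).filter (fun y => ∀ l, G.Adj (sf T0 l) y) with hC
    have hCm : C.card ≤ m := (hsf T0 hT0).2
    have hkey : ∀ T ∈ X.filter (fun T => f T = f T0), rst r i0 T = rst r i0 T0 ∧ sf T = sf T0 := by
      intro T hT
      have h1 := (Finset.mem_filter.1 hT).2
      simp only [hf, Sigma.mk.injEq, heq_eq_eq] at h1
      exact h1
    have h1 : (X.filter (fun T => f T = f T0)).card ≤
        (Fintype.piFinset (fun _ : Fin (r + 1) => C)).card := by
      refine Finset.card_le_card_of_injOn (fun T => T i0) ?_ ?_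
      · intro T hT
        have h2 := hkey T hT
        have hTX := (Finset.mem_filter.1 (Finset.mem_coe.1 hT)).1
        have hTB := (Finset.mem_filter.1 hTX).1
        rw [Finset.mem_coe, Fintype.mem_piFinset]
        intro a
        rw [hC, Finset.mem_filter]
        refine ⟨?_, ?_⟩
        · rw [← hCA T T0 h2.1, mem_ca]
          intro j hj a'
          exact hadj T hTB _ _ _ _ hj
        · intro l
          rw [← h2.2]
          obtain ⟨i, hi, hi2⟩ := (hsf T hTX).1 l
          exact (mem_ca.1 hi2 i0 hi.symm a).symm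
      · intro T hT T' hT' h
        have h2 := (hkey T hT).1.trans (hkey T' hT').1.symm
        simp only at h
        rw [← ext_rst i0 T, ← ext_rst i0 T', h2, h]
    refine h1.trans ?_
    rw [Fintype.card_piFinset]
    simp only [Finset.prod_const, Finset.card_univ, Fintype.card_fin]
    exact Nat.pow_le_pow_left hCm _
  · refine Nat.mul_le_mul_left _ ?_
    set R := (Bl r S q).image (rst r i0) with hR
    set NB : ({i : Fin q // i ≠ i0} → Fin (r + 1) → V) → Finset V :=
      fun ρ => univ.filter (fun y => ∃ i, G.Adj (ρ i 0) y) with hNB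
    have hsub : X.image f ⊆ R.sigma (fun ρ => Fintype.piFinset (fun _ : Fin r => NB ρ)) := by
      intro b hb
      obtain ⟨T, hT, rfl⟩ := Finset.mem_image.1 hb
      have hTB := (Finset.mem_filter.1 hT).1
      rw [Finset.mem_sigma, Fintype.mem_piFinset]
      refine ⟨Finset.mem_image_of_mem _ hTB, ?_⟩
      intro l
      obtain ⟨i, hi, hi2⟩ := (hsf T hT).1 l
      obtain ⟨i', h1, h2⟩ := hex i i0
      rw [hNB, Finset.mem_filter]
      refine ⟨Finset.mem_univ _, ⟨i', h2⟩, ?_⟩
      exact mem_ca.1 hi2 i' h1 0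
    refine (Finset.card_le_card hsub).trans ?_
    rw [Finset.card_sigma]
    have hRc : R.card ≤ D ^ ((q - 1) * (r + 1) - 1) * V'.card := by
      have h2 := rest_card (r := r) hq G D hD S hS V' hV' i0 (fun _ => False) (Bl r S q)
        (fun T hT => ⟨(mem_bl.1 hT).1, fun i h => absurd h not_false⟩)
      rwa [wt_card2] at h2
    have hNBc : ∀ ρ, (NB ρ).card ≤ q * D := by
      intro ρ
      have h1 : NB ρ ⊆ (univ : Finset {i : Fin q // i ≠ i0}).biUnion
          (fun i => univ.filter (fun y => G.Adj (ρ i 0) y)) := by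
        intro y hy
        obtain ⟨-, i, hi⟩ := Finset.mem_filter.1 hy
        rw [Finset.mem_biUnion]
        exact ⟨i, Finset.mem_univ _, Finset.mem_filter.2 ⟨Finset.mem_univ _, hi⟩⟩
      refine (Finset.card_le_card h1).trans ?_
      refine (Finset.card_biUnion_le_card_mul _ _ D ?_).trans ?_
      · intro i _
        exact hD _ _ (fun w hw => (Finset.mem_filter.1 hw).2)
      · refine Nat.mul_le_mul_right _ ?_
        rw [Finset.card_univ]
        refine (Fintype.card_subtype_le _).trans ?_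
        rw [Fintype.card_fin]
    calc ∑ ρ ∈ R, (Fintype.piFinset (fun _ : Fin r => NB ρ)).card
        ≤ ∑ ρ ∈ R, (q * D) ^ r := by
          refine Finset.sum_le_sum (fun ρ _ => ?_)
          rw [Fintype.card_piFinset]
          simp only [Finset.prod_const, Finset.card_univ, Fintype.card_fin]
          exact Nat.pow_le_pow_left (hNBc ρ) _
      _ = R.card * (q * D) ^ r := by rw [Finset.sum_const, smul_eq_mul]
      _ ≤ _ := Nat.mul_le_mul_right _ hRc

end Pool.Agent.U56.DG
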