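import Mathlib
import Pool.Agent.U56.DG.DrcB

set_option autoImplicit false

/-!
# Dependent random choice in a clean family of cliques
-/

namespace Pool.Agent.U56.DG

open Finset Classical Pool.Agent.TH855

set_option linter.unusedSectionVars false

variable {V : Type} [Fintype V] {q r : ℕ}

/-- **A good blow-up.** -/
theorem exists_good (hq : 3 ≤ q) (G : SimpleGraph V) (D m : ℕ) (hD1 : 1 ≤ D)
    (hD : ∀ v, ∀ N : Finset V, (∀ w ∈ N, G.Adj v w) → N.card ≤ D) (S : Finset (Fin q → V))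
    (hS : ∀ ψ ∈ S, ∀ i i', i ≠ i' → G.Adj (ψ i) (ψ i')) (hne : S.Nonempty) (l : ℝ) (hl : 0 ≤ l)
    (hrich : ∀ ψ ∈ S, ∀ i, l * D ≤ ((univ.filter (fun y => Function.update ψ i y ∈ S)).card : ℝ))
    (hnum : ((q : ℝ) * m) ^ (r + 1) < (l ^ (q - 1) / q) ^ ((r + 1) ^ q) * D) :
    ∃ T : Fin q → Fin (r + 1) → V, (∀ i i' a a', i ≠ i' → G.Adj (T i a) (T i' a')) ∧
      ∀ i0, ∀ Sf : Fin r → V, (∀ x, ∃ i, i ≠ i0 ∧ Sf x ∈ CA r G T i) →
        m < ((CA r G T i0).filter (fun y => ∀ x, G.Adj (Sf x) y)).card := by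
  have hDpos : (0 : ℝ) < D := by exact_mod_cast hD1
  have hqpos : (0 : ℝ) < q := by exact_mod_cast (show 0 < q by omega)
  have hV' : ∀ ψ ∈ S, ∀ i, ψ i ∈ Vs S := fun ψ hψ i =>
    Finset.mem_filter.2 ⟨Finset.mem_univ _, ψ, hψ, i, rfl⟩
  have hn : 0 < (Vs S).card := by
    obtain ⟨ψ, hψ⟩ := hne
    exact Finset.card_pos.2 ⟨_, hV' ψ hψ ⟨0, by omega⟩⟩
  have hnpos : (0 : ℝ) < (Vs S).card := by exact_mod_cast hn
  have h1 := vert_card S (l * D) (by positivity) hrich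
  have h0 : l ^ (q - 1) / q * (Vs S).card * (D : ℝ) ^ (q - 1) ≤ S.card := by
    rw [mul_pow] at h1
    rw [div_mul_eq_mul_div, div_mul_eq_mul_div, div_le_iff₀ hqpos]
    linarith
  have hlow := bl_lower (r := r) hq G D hD1 hD S hS (Vs S) hV' hn (l ^ (q - 1) / q)
    (by positivity) h0 q (le_refl _)
  by_contra hcon
  push Not at hcon
  -- every blow-up is bad
  have hadj : ∀ T ∈ Bl r S q, ∀ i i' a a', i ≠ i' → G.Adj (T i a) (T i' a') := by
    intro T hT i i' a a' hne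
    have h1 := hS _ ((mem_bl.1 hT).1 (fun l => if l = i then a else a')) i i' hne
    simpa [hne.symm] using h1
  have hcov : Bl r S q ⊆ (univ : Finset (Fin q)).biUnion (fun i0 =>
      (Bl r S q).filter (fun T => ∃ Sf : Fin r → V, (∀ l, ∃ i, i ≠ i0 ∧ Sf l ∈ CA r G T i) ∧
      ((CA r G T i0).filter (fun y => ∀ l, G.Adj (Sf l) y)).card ≤ m)) := by
    intro T hT
    obtain ⟨i0, Sf, h1, h2⟩ := hcon T (hadj T hT)
    rw [Finset.mem_biUnion]
    exact ⟨i0, Finset.mem_univ _, Finset.mem_filter.2 ⟨hT, Sf, h1, h2⟩⟩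
  have hup : (Bl r S q).card ≤
      q * (m ^ (r + 1) * ((D ^ ((q - 1) * (r + 1) - 1) * (Vs S).card) * (q * D) ^ r)) := by
    refine (Finset.card_le_card hcov).trans ?_
    refine (Finset.card_biUnion_le_card_mul _ _ _
      (fun i0 _ => bad_card (r := r) hq G D m hD S hS (Vs S) hV' i0)).trans ?_
    rw [Finset.card_univ, Fintype.card_fin]
  have hup' : ((Bl r S q).card : ℝ) ≤
      q * ((m : ℝ) ^ (r + 1) * (((D : ℝ) ^ ((q - 1) * (r + 1) - 1) * (Vs S).card) *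
        (q * D) ^ r)) := by exact_mod_cast hup
  have h2 := hlow.trans hup'
  have e1 : q * r + (q - 1) = ((q - 1) * (r + 1) - 1) + r + 1 := by
    obtain ⟨p, rfl⟩ : ∃ p, q = p + 1 := ⟨q - 1, by omega⟩
    have : 1 ≤ (p + 1 - 1) * (r + 1) := Nat.mul_pos (by omega) (by omega)
    zify [this]
    push_cast [Nat.add_sub_cancel]
    ring
  have h3 : (l ^ (q - 1) / q) ^ ((r + 1) ^ q) * (Vs S).card * (D : ℝ) ^ (q * r + (q - 1)) =
      ((Vs S).card * (D : ℝ) ^ (((q - 1) * (r + 1) - 1) + r)) *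
        ((l ^ (q - 1) / q) ^ ((r + 1) ^ q) * D) := by
    rw [e1]
    exact alg2 _ _ _ _ _
  have h4 : (q : ℝ) * ((m : ℝ) ^ (r + 1) * (((D : ℝ) ^ ((q - 1) * (r + 1) - 1) * (Vs S).card) *
        (q * D) ^ r)) = ((Vs S).card * (D : ℝ) ^ (((q - 1) * (r + 1) - 1) + r)) *
        ((q : ℝ) * m) ^ (r + 1) := alg3 _ _ _ _ _ _
  rw [h3, h4] at h2
  have h5 := le_of_mul_le_mul_left h2 (by positivity)
  linarith

end Pool.Agent.U56.DG
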