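import Mathlib
import Pool.Agent.U56.DG.Clean
import Pool.Agent.U56.DG.Drc
import Pool.Agent.U56.DG.Engine
import Pool.Agent.TH855.CBounds

set_option autoImplicit false

/-!
# `c(F)` for `q`-colourable `r`-degenerate graphs
-/

namespace Pool.Agent.U56.DG

open Finset Filter Classical Pool.Agent.TH855 Pool.Agent.Helper311.Glue
open scoped ENNReal

/-- every nonempty set of vertices contains a vertex with at most `r` neighbours in the set -/
def Degenerate {W : Type} (F : SimpleGraph W) (r : ℕ) : Prop :=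
  ∀ s : Set W, s.Nonempty → ∃ w ∈ s, {u | u ∈ s ∧ F.Adj w u}.encard ≤ r

/-- the good blow-up contains all `q`-colourable `r`-degenerate graphs with at most `m` vertices -/
theorem embed_good {W V : Type} [Fintype W] [Fintype V] {q r : ℕ} (hq : 3 ≤ q) (F : SimpleGraph W)
    (κ : F.Coloring (Fin q)) (hF : Degenerate F r) (G : SimpleGraph V)
    (T : Fin q → Fin (r + 1) → V) (hT : ∀ i i' a a', i ≠ i' → G.Adj (T i a) (T i' a'))
    (hgood : ∀ i0, ∀ Sf : Fin r → V, (∀ x, ∃ i, i ≠ i0 ∧ Sf x ∈ CA r G T i) →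
        Fintype.card W < ((CA r G T i0).filter (fun y => ∀ x, G.Adj (Sf x) y)).card) :
    F.IsContained G := by
  have hex : ∀ i : Fin q, ∃ i' : Fin q, i' ≠ i := by
    intro i
    by_contra hcon
    push Not at hcon
    have h1 : (univ : Finset (Fin q)) ⊆ {i} := by
      intro x _
      simp [hcon x]
    have h2 := Finset.card_le_card h1
    rw [Finset.card_univ, Fintype.card_fin, Finset.card_singleton] at h2
    omega
  have key : ∀ (n : ℕ) (s : Finset W), s.card = n → ∃ φ : W → V,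
      (∀ u ∈ s, φ u ∈ CA r G T (κ u)) ∧ (∀ u ∈ s, ∀ v ∈ s, φ u = φ v → u = v) ∧
      ∀ u ∈ s, ∀ v ∈ s, F.Adj u v → G.Adj (φ u) (φ v) := by
    intro n
    induction n with
    | zero =>
      intro s hs
      rw [Finset.card_eq_zero] at hs
      subst hs
      exact ⟨fun w => T (κ w) 0, by simp, by simp, by simp⟩
    | succ n ih =>
      intro s hs
      have hne : (s : Set W).Nonempty := by
        rw [Finset.coe_nonempty, ← Finset.card_pos]; omega
      obtain ⟨w, hw, hwr⟩ := hF _ hne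
      obtain ⟨φ, h1, h2, h3⟩ := ih (s.erase w) (by
        rw [Finset.card_erase_of_mem (by exact_mod_cast hw)]; omega)
      -- the neighbours of `w`
      set N : Finset W := s.filter (fun u => F.Adj w u) with hN
      have hNr : N.card ≤ r := by
        have h4 : {u | u ∈ (s : Set W) ∧ F.Adj w u} = (N : Set W) := by
          ext u
          simp [hN]
        rw [h4, Set.encard_coe_eq_coe_finsetCard] at hwr
        exact_mod_cast hwr
      obtain ⟨i', hi'⟩ := hex (κ w)
      have hSf : ∃ Sf : Fin r → V, (∀ x, ∃ i, i ≠ κ w ∧ Sf x ∈ CA r G T i) ∧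
          ∀ u ∈ N, ∃ x, Sf x = φ u := by
        obtain ⟨g⟩ : Nonempty (N ↪ Fin r) := by
          rw [Function.Embedding.nonempty_iff_card_le]
          simpa using hNr
        refine ⟨fun x => if h : ∃ u, g u = x then φ h.choose.1 else T i' 0, ?_, ?_⟩
        · intro x
          by_cases h : ∃ u, g u = x
          · have h4 := Finset.mem_filter.1 h.choose.2
            refine ⟨κ h.choose.1, fun h5 => κ.valid h4.2 h5.symm, ?_⟩
            show (if h : ∃ u, g u = x then φ h.choose.1 else T i' 0) ∈ _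
            rw [dif_pos h]
            refine h1 _ (Finset.mem_erase.2 ⟨h4.2.ne', h4.1⟩)
          · refine ⟨i', hi', ?_⟩
            show (if h : ∃ u, g u = x then φ h.choose.1 else T i' 0) ∈ _
            rw [dif_neg h, mem_ca]
            intro j hj a
            exact hT _ _ _ _ hj
        · intro u hu
          refine ⟨g ⟨u, hu⟩, ?_⟩
          have h : ∃ u', g u' = g ⟨u, hu⟩ := ⟨_, rfl⟩
          show (if h : ∃ u', g u' = g ⟨u, hu⟩ then φ h.choose.1 else T i' 0) = φ u
          rw [dif_pos h]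
          have h4 := g.injective h.choose_spec
          rw [h4]
      obtain ⟨Sf, hSf1, hSf2⟩ := hSf
      have h4 := hgood (κ w) Sf hSf1
      have h5 : ((s.erase w).image φ).card < ((CA r G T (κ w)).filter
          (fun y => ∀ x, G.Adj (Sf x) y)).card :=
        lt_of_le_of_lt (Finset.card_image_le.trans (Finset.card_le_univ _)) h4
      obtain ⟨y, hy, hy'⟩ := Finset.exists_mem_notMem_of_card_lt_card h5
      rw [Finset.mem_filter] at hy
      have hyne : ∀ u ∈ s, u ≠ w → φ u ≠ y := by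
        intro u hu huw h
        exact hy' (Finset.mem_image.2 ⟨u, Finset.mem_erase.2 ⟨huw, hu⟩, h⟩)
      have hadj : ∀ u ∈ s, F.Adj w u → G.Adj (φ u) y := by
        intro u hu hwu
        obtain ⟨x, hx⟩ := hSf2 u (Finset.mem_filter.2 ⟨hu, hwu⟩)
        rw [← hx]
        exact hy.2 x
      refine ⟨Function.update φ w y, ?_, ?_, ?_⟩
      · intro u hu
        by_cases huw : u = w
        · rw [huw, Function.update_self]; exact hy.1
        · rw [Function.update_of_ne huw]
          exact h1 u (Finset.mem_erase.2 ⟨huw, hu⟩)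
      · intro u hu v hv huv
        by_cases huw : u = w
        · by_cases hvw : v = w
          · rw [huw, hvw]
          · rw [huw, Function.update_self, Function.update_of_ne hvw] at huv
            exact absurd huv.symm (hyne v hv hvw)
        · by_cases hvw : v = w
          · rw [hvw, Function.update_self, Function.update_of_ne huw] at huv
            exact absurd huv (hyne u hu huw)
          · rw [Function.update_of_ne huw, Function.update_of_ne hvw] at huv
            exact h2 u (Finset.mem_erase.2 ⟨huw, hu⟩) v (Finset.mem_erase.2 ⟨hvw, hv⟩) huv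
      · intro u hu v hv huv
        by_cases huw : u = w
        · have hvw : v ≠ w := by rw [← huw]; exact huv.ne'
          rw [huw, Function.update_self, Function.update_of_ne hvw]
          rw [huw] at huv
          exact (hadj v hv huv).symm
        · by_cases hvw : v = w
          · rw [hvw, Function.update_self, Function.update_of_ne huw]
            rw [hvw] at huv
            exact hadj u hu huv.symm
          · rw [Function.update_of_ne huw, Function.update_of_ne hvw]
            exact h3 u (Finset.mem_erase.2 ⟨huw, hu⟩) v (Finset.mem_erase.2 ⟨hvw, hv⟩) huv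
  obtain ⟨φ, -, h2, h3⟩ := key _ univ rfl
  refine ⟨⟨⟨φ, ?_⟩, ?_⟩⟩
  · intro u v huv
    exact h3 u (Finset.mem_univ _) v (Finset.mem_univ _) huv
  · intro u v huv
    exact h2 u (Finset.mem_univ _) v (Finset.mem_univ _) huv

theorem upd_inst {α β : Type} (i1 i2 : DecidableEq α) (f : α → β) (a : α) (y : β) :
    @Function.update α (fun _ => β) i1 f a y = @Function.update α (fun _ => β) i2 f a y := by
  rw [Subsingleton.elim i1 i2]

theorem upTo_degenerate {W : Type} [Fintype W] {k r : ℕ} (hk : 2 ≤ k) (F : SimpleGraph W)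
    (hcol : F.Colorable (k + 1)) (hF : Degenerate F r) {c : ℝ} (hc0 : 0 ≤ c)
    (h : UpTo (⊤ : SimpleGraph (Fin (k + 1))) c) (β : ℝ) (hβ0 : 0 < β) (hβ1 : β ≤ 1)
    (hβ : β * (k * ((r + 1) ^ (k + 1) : ℕ)) < 1) : UpTo F (k / β * c) := by
  obtain ⟨κ⟩ := hcol
  have hkpos : (0 : ℝ) < k := by exact_mod_cast (show 0 < k by omega)
  intro ε hε
  have hconn : (⊤ : SimpleGraph (Fin (k + 1))).Connected := SimpleGraph.connected_top
  have hrim : ((⊤ : SimpleGraph (Fin (k + 1))).induce {z | z ≠ 0}).Connected :=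
    top_induce_connected {z | z ≠ 0} ⟨⟨1, by omega⟩, by
      show (⟨1, by omega⟩ : Fin (k + 1)) ≠ 0
      intro h0
      have := congrArg Fin.val h0
      simp at this⟩
  obtain ⟨D₀, hD₀⟩ := engineB (⊤ : SimpleGraph (Fin (k + 1))) hc0 (UpTo.gb hc0 h)
    (⊤ : SimpleGraph (Fin (k + 1))) hconn k (by omega) (by simp) 0 β hβ0 hβ1 hrim ε hε
  -- the numerical condition
  set N : ℕ := (r + 1) ^ (k + 1) with hN
  set C1 : ℝ := (((k + 1 : ℕ) : ℝ) ^ k * ((k + 1 : ℕ) : ℝ)) ^ N with hC1
  have hC1pos : 0 < C1 := by rw [hC1]; positivity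
  have hpos : 0 < 1 - β * (k * (N : ℝ)) := by linarith
  have E : ∀ᶠ L : ℝ in atTop, (((k + 1 : ℕ) : ℝ) * (Fintype.card W : ℝ)) ^ (r + 1) * C1 <
      Real.exp ((1 - β * (k * (N : ℝ))) * L) :=
    (Real.tendsto_exp_atTop.comp (tendsto_id.const_mul_atTop hpos)).eventually_gt_atTop _
  have hlogtend : Tendsto (fun n : ℕ => Real.log (n : ℝ)) atTop atTop :=
    Real.tendsto_log_atTop.comp tendsto_natCast_atTop_atTop
  obtain ⟨D₁, hD₁⟩ := eventually_atTop.1 (hlogtend.eventually E)
  refine ⟨max (max D₀ D₁) 1, ?_⟩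
  intro Δ hΔ V _ G _ hfree hmax
  have hΔ0 : D₀ ≤ Δ := (le_max_left _ _).trans ((le_max_left _ _).trans hΔ)
  have hΔ1 : D₁ ≤ Δ := (le_max_right _ _).trans ((le_max_left _ _).trans hΔ)
  have hΔ2 : 1 ≤ Δ := (le_max_right _ _).trans hΔ
  have e1 := hD₁ Δ hΔ1
  set L := Real.log (Δ : ℝ) with hL
  have hΔr : (1 : ℝ) ≤ Δ := by exact_mod_cast hΔ2
  have hΔexp : (Δ : ℝ) = Real.exp L := by rw [hL, Real.exp_log (by linarith)]
  have hdeg : ∀ v, G.degree v ≤ Δ := fun v => by rw [← hmax]; exact G.degree_le_maxDegree v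
  have hD' : ∀ v, ∀ N : Finset V, (∀ w ∈ N, G.Adj v w) → N.card ≤ Δ := by
    intro v N hN
    have h1 : N ⊆ G.neighborFinset v := by
      intro w hw
      rw [SimpleGraph.mem_neighborFinset]
      exact hN w hw
    refine (Finset.card_le_card h1).trans ?_
    rw [SimpleGraph.card_neighborFinset_eq_degree]
    exact hdeg v
  suffices hmain : ∃ n : ℕ, (n : ℝ) ≤ (k / β * c + ε) * ((Δ : ℝ) / Real.log Δ) ∧
      ColOn G Set.univ n by
    obtain ⟨n, hn, hcol⟩ := hmain
    exact ⟨n, colorable_of_colOn hcol, hn⟩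
  set A : Finset (Fin (k + 1) → V) :=
    univ.filter (fun ψ => Function.Injective ψ ∧ IsHom (⊤ : SimpleGraph (Fin (k + 1))) G ψ) with hA
  set Ex : ℝ := Real.exp ((1 - β) * L) with hEx
  have hExpos : 0 < Ex := Real.exp_pos _
  have hk1pos : (0 : ℝ) < ((k + 1 : ℕ) : ℝ) := by positivity
  set s : ℕ := ⌊Ex / ((k + 1 : ℕ) : ℝ)⌋₊ with hs
  have hs1 : (s : ℝ) ≤ Ex / ((k + 1 : ℕ) : ℝ) := Nat.floor_le (by positivity)
  have hs2 : Ex / ((k + 1 : ℕ) : ℝ) ≤ ((s + 1 : ℕ) : ℝ) := by
    have h3 := (Nat.lt_floor_add_one (Ex / ((k + 1 : ℕ) : ℝ))).le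
    rw [← hs] at h3
    rw [Nat.cast_add s 1, Nat.cast_one]
    exact h3
  rcases clean s _ A rfl with ⟨S, hSA, hSne, hSrich⟩ | ⟨a, ha⟩
  · exfalso
    apply hfree
    set l : ℝ := Real.exp (-(β * L)) / ((k + 1 : ℕ) : ℝ) with hl
    have hlpos : 0 < l := by rw [hl]; positivity
    have hlD : l * Δ = Ex / ((k + 1 : ℕ) : ℝ) := by
      rw [hl, hEx, div_mul_eq_mul_div]
      congr 1
      conv_lhs => rw [hΔexp]
      rw [← Real.exp_add]
      congr 1
      ring
    have hnum : (((k + 1 : ℕ) : ℝ) * (Fintype.card W : ℝ)) ^ (r + 1) <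
        (l ^ (k + 1 - 1) / ((k + 1 : ℕ) : ℝ)) ^ ((r + 1) ^ (k + 1)) * Δ := by
      rw [Nat.add_sub_cancel, ← hN]
      have h1 : (l ^ k / ((k + 1 : ℕ) : ℝ)) ^ N = Real.exp (-(β * (k * (N : ℝ)) * L)) / C1 := by
        have h2 : (Real.exp (-(β * L)) / ((k + 1 : ℕ) : ℝ)) ^ k / ((k + 1 : ℕ) : ℝ) =
            Real.exp (-(β * L)) ^ k / (((k + 1 : ℕ) : ℝ) ^ k * ((k + 1 : ℕ) : ℝ)) := by
          rw [div_pow, div_div]
        rw [hl, h2, div_pow, ← hC1, ← Real.exp_nat_mul, ← Real.exp_nat_mul]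
        congr 2
        ring
      have h2 : Real.exp (-(β * (k * (N : ℝ)) * L)) / C1 * Δ =
          Real.exp ((1 - β * (k * (N : ℝ))) * L) / C1 := by
        rw [div_mul_eq_mul_div]
        congr 1
        conv_lhs => rw [hΔexp]
        rw [← Real.exp_add]
        congr 1
        ring
      rw [h1, h2, lt_div_iff₀ hC1pos]
      exact e1
    obtain ⟨T, hT, hgood⟩ := exists_good (q := k + 1) (r := r) (by omega) G Δ (Fintype.card W) hΔ2
      hD' S (fun ψ hψ i i' hii => (Finset.mem_filter.1 (hSA hψ)).2.2 i i' hii) hSne l hlpos.le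
      (fun ψ hψ i => by
        rw [hlD]
        refine hs2.trans ?_
        exact Nat.cast_le.2 (hSrich ψ hψ i)) hnum
    exact embed_good (by omega) F κ hF G T hT hgood
  · refine hD₀ Δ hΔ0 V G hdeg (Psi A a) ?_ ?_ ?_
    · intro ψ hψ
      obtain ⟨ψ', hψ', rfl⟩ := Finset.mem_image.1 hψ
      obtain ⟨-, h1, h2⟩ := Finset.mem_filter.1 hψ'
      refine ⟨h1.comp (Equiv.injective _), ?_⟩
      intro i j hij
      exact h2 _ _ (fun h3 => hij (Equiv.injective _ h3))
    · intro ψ hψ Y hY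
      have hY' : ∀ y ∈ Y, @Function.update (Fin (k + 1)) (fun _ => V) (instDecidableEqFin (k + 1))
          ψ 0 y ∈ Psi A a := by
        intro y hy
        have h3 := hY y hy
        rw [upd_inst (instDecidableEqFin (k + 1)) (fun a b => propDecidable (a = b)) ψ 0 y]
        exact h3
      have h1 := psi_few A a ha ψ Y hY'
      have h2 : (Y.card : ℝ) ≤ ((k + 1 : ℕ) : ℝ) * s := by exact_mod_cast h1
      refine h2.trans ?_
      rw [le_div_iff₀ hk1pos] at hs1
      rw [mul_comm]
      exact hs1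
    · intro T hT
      obtain ⟨φ, hφ, hφT⟩ := hT
      have hφA : φ ∈ A := Finset.mem_filter.2 ⟨Finset.mem_univ _, hφ.1, hφ.2⟩
      refine ⟨φ ∘ Equiv.swap 0 (a φ), Finset.mem_image_of_mem _ hφA, ?_⟩
      rw [← hφT]
      rintro _ ⟨i, rfl⟩
      exact ⟨_, rfl⟩

/-- **The bound for `q`-colourable `r`-degenerate graphs.** -/
theorem c_degenerate {W : Type} [Fintype W] (q r : ℕ) (hq : 3 ≤ q) (F : SimpleGraph W)
    (hcol : F.Colorable q) (hF : Degenerate F r) :
    c F ≤ ((q - 1) ^ 2 * (r + 1) ^ q : ℕ) * c (⊤ : SimpleGraph (Fin q)) := by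
  obtain ⟨k, rfl⟩ : ∃ k, q = k + 1 := ⟨q - 1, by omega⟩
  have hk : 2 ≤ k := by omega
  rw [Nat.add_sub_cancel]
  set N : ℕ := (r + 1) ^ (k + 1) with hN
  have hNpos : 0 < N := by rw [hN]; positivity
  have hMpos : 0 < k ^ 2 * N := by positivity
  by_cases h : c (⊤ : SimpleGraph (Fin (k + 1))) = ∞
  · rw [h, ENNReal.mul_top (by exact_mod_cast hMpos.ne')]
    exact le_top
  set a : ℝ := (c (⊤ : SimpleGraph (Fin (k + 1)))).toReal with ha
  have ha0 : 0 ≤ a := ENNReal.toReal_nonneg
  have h1 : UpTo (⊤ : SimpleGraph (Fin (k + 1))) a :=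
    upTo_of_c_le _ _ ha0 (by rw [ha, ENNReal.ofReal_toReal h])
  have hkr : (0 : ℝ) < k := by exact_mod_cast (show 0 < k by omega)
  have hNr : (1 : ℝ) ≤ N := by exact_mod_cast hNpos
  have hkr1 : (1 : ℝ) ≤ k := by exact_mod_cast (show 1 ≤ k by omega)
  have h2 : UpTo F ((k ^ 2 * N : ℕ) * a) := by
    intro ε hε
    set τ : ℝ := ε / (2 * (((k ^ 2 * N : ℕ) : ℝ) * a + 1)) with hτ
    have hM0 : (0 : ℝ) ≤ ((k ^ 2 * N : ℕ) : ℝ) * a := by positivity
    have hτ0 : 0 < τ := by positivity
    set β : ℝ := 1 / (k * N * (1 + τ)) with hβ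
    have hden : (1 : ℝ) ≤ k * N * (1 + τ) := by
      have h3 : (1 : ℝ) ≤ k * N := by
        calc (1 : ℝ) = 1 * 1 := by ring
          _ ≤ k * N := mul_le_mul hkr1 hNr (by norm_num) hkr.le
      calc (1 : ℝ) = 1 * 1 := by ring
        _ ≤ k * N * (1 + τ) := mul_le_mul h3 (by linarith) (by norm_num) (by linarith)
    have hβ0 : 0 < β := by positivity
    have hβ1 : β ≤ 1 := by
      rw [hβ, div_le_one (by linarith)]; exact hden
    have hβ2 : β * (k * ((r + 1) ^ (k + 1) : ℕ)) < 1 := by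
      rw [← hN, hβ, div_mul_eq_mul_div, div_lt_one (by linarith), one_mul]
      have h3 : (0 : ℝ) < k * N := by positivity
      nlinarith
    obtain ⟨D₀, hD₀⟩ := upTo_degenerate hk F hcol hF ha0 h1 β hβ0 hβ1 hβ2 (ε / 2) (by linarith)
    refine ⟨D₀, ?_⟩
    intro Δ hΔ V _ G _ hfree hmax
    obtain ⟨n, hn, hn2⟩ := hD₀ Δ hΔ V G hfree hmax
    refine ⟨n, hn, hn2.trans ?_⟩
    refine mul_le_mul_of_nonneg_right ?_ (div_nonneg (by positivity) (Real.log_natCast_nonneg _))
    have h3 : k / β * a = ((k ^ 2 * N : ℕ) : ℝ) * a + ((k ^ 2 * N : ℕ) : ℝ) * a * τ := by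
      rw [hβ]
      push_cast
      field_simp
    have h4 : ((k ^ 2 * N : ℕ) : ℝ) * a * τ ≤ ε / 2 := by
      rw [hτ, mul_div_assoc', div_le_div_iff₀ (by positivity) two_pos]
      nlinarith
    linarith
  have h3 := c_le_of_upTo F _ (by positivity) h2
  rw [ENNReal.ofReal_mul (by positivity), ENNReal.ofReal_natCast, ha, ENNReal.ofReal_toReal h] at h3
  exact h3

/-- three colours -/
theorem c_degenerate_three {W : Type} [Fintype W] (r : ℕ) (F : SimpleGraph W)
    (hcol : F.Colorable 3) (hF : Degenerate F r) : c F ≤ ((4 * (r + 1) ^ 3 : ℕ) : ℝ≥0∞) := by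
  refine (c_degenerate 3 r (le_refl _) F hcol hF).trans ?_
  calc (((3 - 1) ^ 2 * (r + 1) ^ 3 : ℕ) : ℝ≥0∞) * c (⊤ : SimpleGraph (Fin 3))
      ≤ (((3 - 1) ^ 2 * (r + 1) ^ 3 : ℕ) : ℝ≥0∞) * 1 := mul_le_mul_right c_triangle_le_one _
    _ = _ := by norm_num

/-- `r`-degenerate graphs are `(r+1)`-colourable -/
theorem colorable_of_degenerate {W : Type} [Fintype W] (F : SimpleGraph W) (r : ℕ)
    (hF : Degenerate F r) : F.Colorable (r + 1) := by
  have key : ∀ (n : ℕ) (s : Finset W), s.card = n → ∃ φ : W → Fin (r + 1),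
      ∀ u ∈ s, ∀ v ∈ s, F.Adj u v → φ u ≠ φ v := by
    intro n
    induction n with
    | zero =>
      intro s hs
      rw [Finset.card_eq_zero] at hs
      subst hs
      exact ⟨fun _ => 0, by simp⟩
    | succ n ih =>
      intro s hs
      have hne : (s : Set W).Nonempty := by
        rw [Finset.coe_nonempty, ← Finset.card_pos]; omega
      obtain ⟨w, hw, hwr⟩ := hF _ hne
      obtain ⟨φ, h1⟩ := ih (s.erase w) (by
        rw [Finset.card_erase_of_mem (by exact_mod_cast hw)]; omega)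
      set N : Finset W := s.filter (fun u => F.Adj w u) with hN
      have hNr : N.card ≤ r := by
        have h4 : {u | u ∈ (s : Set W) ∧ F.Adj w u} = (N : Set W) := by
          ext u
          simp [hN]
        rw [h4, Set.encard_coe_eq_coe_finsetCard] at hwr
        exact_mod_cast hwr
      have h5 : (N.image φ).card < (univ : Finset (Fin (r + 1))).card := by
        rw [Finset.card_univ, Fintype.card_fin]
        have := Finset.card_image_le (s := N) (f := φ)
        omega
      obtain ⟨y, -, hy⟩ := Finset.exists_mem_notMem_of_card_lt_card h5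
      have hyN : ∀ u ∈ s, F.Adj w u → φ u ≠ y := by
        intro u hu hwu h
        exact hy (Finset.mem_image.2 ⟨u, Finset.mem_filter.2 ⟨hu, hwu⟩, h⟩)
      refine ⟨Function.update φ w y, ?_⟩
      intro u hu v hv huv
      by_cases huw : u = w
      · have hvw : v ≠ w := by rw [← huw]; exact huv.ne'
        rw [huw, Function.update_self, Function.update_of_ne hvw]
        rw [huw] at huv
        exact (hyN v hv huv).symm
      · by_cases hvw : v = w
        · rw [hvw, Function.update_self, Function.update_of_ne huw]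
          rw [hvw] at huv
          exact hyN u hu huv.symm
        · rw [Function.update_of_ne huw, Function.update_of_ne hvw]
          exact h1 u (Finset.mem_erase.2 ⟨huw, hu⟩) v (Finset.mem_erase.2 ⟨hvw, hv⟩) huv
  obtain ⟨φ, h1⟩ := key _ univ rfl
  exact ⟨SimpleGraph.Coloring.mk φ (fun {u v} huv =>
    h1 u (Finset.mem_univ _) v (Finset.mem_univ _) huv)⟩

theorem degenerate_top (r : ℕ) : Degenerate (⊤ : SimpleGraph (Fin (r + 1))) r := by
  intro s hs
  obtain ⟨w, hw⟩ := hs
  refine ⟨w, hw, ?_⟩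
  have h1 : {u | u ∈ s ∧ (⊤ : SimpleGraph (Fin (r + 1))).Adj w u} ⊆
      ((univ.erase w : Finset (Fin (r + 1))) : Set (Fin (r + 1))) := by
    rintro u ⟨-, hu⟩
    rw [Finset.mem_coe, Finset.mem_erase]
    exact ⟨hu.ne', Finset.mem_univ _⟩
  refine (Set.encard_le_encard h1).trans ?_
  rw [Set.encard_coe_eq_coe_finsetCard, Finset.card_erase_of_mem (Finset.mem_univ _),
    Finset.card_univ, Fintype.card_fin, Nat.add_sub_cancel]

/-- uniform bounds for `r`-degenerate graphs -/
theorem uniform_iff (r : ℕ) (hr : 2 ≤ r) :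
    (∃ C : ℝ≥0∞, C < ∞ ∧ ∀ (W : Type) [Fintype W] (F : SimpleGraph W), Degenerate F r → c F ≤ C) ↔
      c (⊤ : SimpleGraph (Fin (r + 1))) < ∞ := by
  constructor
  · rintro ⟨C, hC, h⟩
    exact (h _ _ (degenerate_top r)).trans_lt hC
  · intro h
    refine ⟨((r + 1 - 1) ^ 2 * (r + 1) ^ (r + 1) : ℕ) * c (⊤ : SimpleGraph (Fin (r + 1))),
      ENNReal.mul_lt_top (ENNReal.natCast_lt_top _) h, ?_⟩
    intro W _ F hF
    exact c_degenerate (r + 1) r (by omega) F (colorable_of_degenerate F r hF) hF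

end Pool.Agent.U56.DG
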